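import Pool.Agent.Helper63.Sey3.Goals

/-!
# MP_b6b2d3_co, packet SEY3-LOC: locality with respect to balls
-/

namespace Pool.Agent.Helper70.Sey3

open Pool.Agent.Helper63.Sey3
open Pool.Agent.Helper8.Sey (near NearBd near_symm near_three)

open Classical in
/-- A vertex and its neighbours in the near parts. -/
noncomputable def St {V : Type} [Fintype V] (P : Sy V) (v : V) : Finset V :=
  insert v (Finset.univ.filter fun u => P.H.Adj u v ∧ near P.K (P.part u) (P.part v))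

open Classical in
/-- The balls. -/
noncomputable def Ba {V : Type} [Fintype V] (P : Sy V) : ℕ → V → Finset V
  | 0, v => {v}
  | t + 1, v => (St P v).biUnion (Ba P t)

section
variable {V : Type} [Fintype V] (P : Sy V)

theorem self_mem_St (v : V) : v ∈ St P v := by
  classical
  unfold St
  exact Finset.mem_insert_self _ _

theorem mem_St_of {u v : V} (h : P.H.Adj u v) (hn : near P.K (P.part u) (P.part v)) :
    u ∈ St P v := by
  classical
  unfold St
  simp only [Finset.mem_insert, Finset.mem_filter, Finset.mem_univ, true_and]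
  exact Or.inr ⟨h, hn⟩

theorem St_symm {u v : V} (h : u ∈ St P v) : v ∈ St P u := by
  classical
  unfold St at h ⊢
  simp only [Finset.mem_insert, Finset.mem_filter, Finset.mem_univ, true_and] at h ⊢
  rcases h with rfl | ⟨h1, h2⟩
  · exact Or.inl rfl
  · exact Or.inr ⟨h1.symm, near_symm h2⟩

theorem card_St_le (v : V) : (St P v).card ≤ 3 * P.D + 1 := by
  classical
  unfold St
  refine (Finset.card_insert_le _ _).trans (Nat.add_le_add_right ?_ 1)
  obtain ⟨T, hT, hT2⟩ := near_three P.K (P.part v)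
  have hsub : (Finset.univ.filter fun u => P.H.Adj u v ∧ near P.K (P.part u) (P.part v)) ⊆
      T.biUnion (fun m => Finset.univ.filter fun u =>
        (P.H.Adj v u ∧ P.part u = m) ∧ near P.K (P.part v) m) := by
    intro u hu
    simp only [Finset.mem_filter, Finset.mem_univ, true_and, Finset.mem_biUnion] at hu ⊢
    exact ⟨P.part u, hT2 _ (P.part_lt u) (near_symm hu.2), ⟨hu.1.symm, rfl⟩, near_symm hu.2⟩
  refine (Finset.card_le_card hsub).trans ?_
  refine (Finset.card_biUnion_le_card_mul _ _ P.D (fun m _ => ?_)).trans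
    (Nat.mul_le_mul_right _ hT)
  by_cases hm : m < P.K ∧ near P.K (P.part v) m
  · have h1 := P.hnear.2 v m hm.1 hm.2
    rw [Nat.card_eq_fintype_card, Fintype.card_subtype] at h1
    refine le_trans (Finset.card_le_card ?_) h1
    intro u hu
    simp only [Finset.mem_filter, Finset.mem_univ, true_and] at hu ⊢
    exact hu.1
  · rw [Finset.filter_false_of_mem]
    · simp
    · rintro u _ ⟨⟨_, h2⟩, h3⟩
      exact hm ⟨h2 ▸ P.part_lt u, h3⟩

theorem card_Ba_le (t : ℕ) (v : V) : (Ba P t v).card ≤ (3 * P.D + 1) ^ t := by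
  classical
  induction t generalizing v with
  | zero => simp [Ba]
  | succ t ih =>
    have h1 : Ba P (t + 1) v = (St P v).biUnion (Ba P t) := rfl
    rw [h1, pow_succ, mul_comm]
    exact (Finset.card_biUnion_le_card_mul _ _ _ fun w _ => ih w).trans
      (Nat.mul_le_mul_right _ (card_St_le P v))

theorem mem_Ba_succ {t : ℕ} {v x : V} : x ∈ Ba P (t + 1) v ↔ ∃ w ∈ St P v, x ∈ Ba P t w := by
  classical
  have h1 : Ba P (t + 1) v = (St P v).biUnion (Ba P t) := rfl
  rw [h1, Finset.mem_biUnion]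

theorem mem_Ba_zero {v x : V} : x ∈ Ba P 0 v ↔ x = v := by
  classical
  have h1 : Ba P 0 v = {v} := rfl
  rw [h1, Finset.mem_singleton]

theorem self_mem_Ba (t : ℕ) (v : V) : v ∈ Ba P t v := by
  induction t with
  | zero => exact (mem_Ba_zero P).2 rfl
  | succ t ih => exact (mem_Ba_succ P).2 ⟨v, self_mem_St P v, ih⟩

theorem Ba_comp {s t : ℕ} {v x y : V} (h1 : x ∈ Ba P s v) (h2 : y ∈ Ba P t x) :
    y ∈ Ba P (s + t) v := by
  induction s generalizing v with
  | zero =>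
    rw [(mem_Ba_zero P).1 h1] at h2
    rwa [zero_add]
  | succ s ih =>
    obtain ⟨w, hw, hx⟩ := (mem_Ba_succ P).1 h1
    have h3 : s + 1 + t = s + t + 1 := by omega
    rw [h3]
    exact (mem_Ba_succ P).2 ⟨w, hw, ih hx⟩

theorem Ba_symm {t : ℕ} {v x : V} (h : x ∈ Ba P t v) : v ∈ Ba P t x := by
  induction t generalizing v with
  | zero =>
    rw [(mem_Ba_zero P).1 h]
    exact self_mem_Ba P 0 v
  | succ t ih =>
    obtain ⟨w, hw, hx⟩ := (mem_Ba_succ P).1 h
    refine Ba_comp P (ih hx) ((mem_Ba_succ P).2 ⟨v, St_symm P hw, self_mem_Ba P 0 v⟩)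

theorem Ba_mono {s t : ℕ} (h : s ≤ t) {v x : V} (hx : x ∈ Ba P s v) : x ∈ Ba P t v := by
  obtain ⟨r, rfl⟩ := Nat.exists_eq_add_of_le h
  exact Ba_comp P hx (self_mem_Ba P r x)

theorem Ba_step {t : ℕ} {u v x : V} (h : u ∈ St P v) (hx : x ∈ Ba P t u) :
    x ∈ Ba P (t + 1) v := (mem_Ba_succ P).2 ⟨u, h, hx⟩

theorem own_mem_St {u v : V} (h : P.Own v u) : u ∈ St P v := by
  refine mem_St_of P h.1.symm ?_
  rw [h.2]
  exact Sy.near_self P _

variable (ω ω' : P.Om)

theorem c0_loc (v : V) (h : ∀ w ∈ Ba P 1 v, ω w = ω' w) : P.c0 ω v = P.c0 ω' v := by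
  classical
  unfold Sy.c0
  have hv := h v (self_mem_Ba P 1 v)
  have hy : ∀ y, P.Own v y → ω y = ω' y := fun y hy =>
    h y (Ba_step P (own_mem_St P hy) (self_mem_Ba P 0 y))
  have key : (P.al (ω v) ∧ ∀ y, P.Own v y → ¬ (P.al (ω y) ∧ P.co (ω y) = P.co (ω v))) ↔
      (P.al (ω' v) ∧ ∀ y, P.Own v y → ¬ (P.al (ω' y) ∧ P.co (ω' y) = P.co (ω' v))) := by
    rw [hv]
    refine and_congr_right fun _ => forall_congr' fun y => forall_congr' fun h1 => ?_
    rw [hy y h1]
  by_cases hp : P.al (ω v) ∧ ∀ y, P.Own v y → ¬ (P.al (ω y) ∧ P.co (ω y) = P.co (ω v))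
  · rw [if_pos hp, if_pos (key.1 hp), hv]
  · rw [if_neg hp, if_neg fun h1 => hp (key.2 h1)]

omit [Fintype V] in
theorem used_loc {c c' : V → Option (Fin P.q)} {v : V} (h : ∀ u, P.Own v u → c u = c' u) :
    P.used c v = P.used c' v := by
  funext a
  apply propext
  constructor
  · rintro ⟨u, h1, h2⟩
    exact ⟨u, h1, by rw [← h u h1]; exact h2⟩
  · rintro ⟨u, h1, h2⟩
    exact ⟨u, h1, by rw [h u h1]; exact h2⟩

omit [Fintype V] in
theorem pk_loc {c c' : V → Option (Fin P.q)} {v : V} (h0 : ω v = ω' v)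
    (h : ∀ u, P.Own v u → c u = c' u) : P.pk ω c v = P.pk ω' c' v := by
  unfold Sy.pk
  rw [h0, used_loc P h]

theorem stp_loc (i : ℕ) {c c' : V → Option (Fin P.q)} {v : V}
    (h : ∀ w ∈ Ba P 2 v, c w = c' w) (h0 : ∀ w ∈ Ba P 1 v, ω w = ω' w) :
    P.stp ω i c v = P.stp ω' i c' v := by
  classical
  unfold Sy.stp
  have hv := h0 v (self_mem_Ba P 1 v)
  have hc := h v (self_mem_Ba P 2 v)
  have hy : ∀ y, P.Own v y → ω y = ω' y := fun y hy =>
    h0 y (Ba_step P (own_mem_St P hy) (self_mem_Ba P 0 y))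
  have hcy : ∀ y, P.Own v y → c y = c' y := fun y hy =>
    h y (Ba_step P (own_mem_St P hy) (self_mem_Ba P 1 y))
  have hcz : ∀ y, P.Own v y → ∀ z, P.Own y z → c z = c' z := fun y hy z hz =>
    h z (Ba_step P (own_mem_St P hy) (Ba_step P (own_mem_St P hz) (self_mem_Ba P 0 z)))
  have hpv : P.pk ω c v = P.pk ω' c' v := pk_loc P ω ω' hv hcy
  have hpy : ∀ y, P.Own v y → P.pk ω c y = P.pk ω' c' y := fun y h1 =>
    pk_loc P ω ω' (hy y h1) (hcz y h1)
  have key : (P.rd (ω v) = i ∧ ¬ P.used c v (P.pk ω c v) ∧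
      ∀ y, P.Own v y → P.idx y < P.idx v → c y = none → P.rd (ω y) = i →
        P.pk ω c y ≠ P.pk ω c v) ↔ (P.rd (ω' v) = i ∧ ¬ P.used c' v (P.pk ω' c' v) ∧
      ∀ y, P.Own v y → P.idx y < P.idx v → c' y = none → P.rd (ω' y) = i →
        P.pk ω' c' y ≠ P.pk ω' c' v) := by
    rw [hv, hpv, used_loc P hcy]
    refine and_congr_right fun _ => and_congr_right fun _ => forall_congr' fun y =>
      forall_congr' fun h1 => ?_
    rw [hy y h1, hcy y h1, hpy y h1]
  by_cases h1 : c v ≠ none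
  · have h2 : c' v ≠ none := by rw [← hc]; exact h1
    rw [if_pos h1, if_pos h2, hc]
  · have h2 : ¬ c' v ≠ none := by rw [← hc]; exact h1
    rw [if_neg h1, if_neg h2]
    by_cases h3 : P.rd (ω v) = i ∧ ¬ P.used c v (P.pk ω c v) ∧
        ∀ y, P.Own v y → P.idx y < P.idx v → c y = none → P.rd (ω y) = i →
          P.pk ω c y ≠ P.pk ω c v
    · rw [if_pos h3, if_pos (key.1 h3), hpv]
    · rw [if_neg h3, if_neg fun h4 => h3 (key.2 h4)]

theorem st_loc (i : ℕ) (v : V) (h : ∀ w ∈ Ba P (2 * i + 1) v, ω w = ω' w) :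
    P.st ω i v = P.st ω' i v := by
  induction i generalizing v with
  | zero => exact c0_loc P ω ω' v h
  | succ i ih =>
    rw [P.st_succ, P.st_succ]
    refine stp_loc P ω ω' i (fun w hw => ih w fun x hx => h x ?_) fun w hw => h w ?_
    · have := Ba_comp P hw hx
      refine Ba_mono P ?_ this
      omega
    · exact Ba_mono P (by omega) hw

theorem col_loc {t : ℕ} (ht : 2 * P.Z + 1 ≤ t) (v : V) (h : ∀ w ∈ Ba P t v, ω w = ω' w) :
    P.col ω v = P.col ω' v :=
  st_loc P ω ω' P.Z v fun w hw => h w (Ba_mono P ht hw)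

theorem isC_loc {t : ℕ} (ht : 2 * P.Z + 1 ≤ t) (v : V) (h : ∀ w ∈ Ba P t v, ω w = ω' w)
    (g : ZMod P.N) : P.isC ω v g ↔ P.isC ω' v g := by
  unfold Sy.isC
  rw [col_loc P ω ω' ht v h]

theorem UT_loc (R : ℕ → V → ZMod P.N → ℕ) (j : ℕ) (v : V)
    (h : ∀ w ∈ Ba P (2 * P.Z + 1 + j) v, ω w = ω' w) :
    (P.U R ω j v ↔ P.U R ω' j v) ∧ (P.T R ω j v ↔ P.T R ω' j v) := by
  induction j generalizing v with
  | zero =>
    refine ⟨Iff.rfl, ?_⟩
    have hc := isC_loc P ω ω' (t := 2 * P.Z + 1 + 0) (by omega) v h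
    have hv := h v (self_mem_Ba P _ v)
    rw [P.T_iff, P.T_iff]
    refine and_congr Iff.rfl (exists_congr fun g => ?_)
    rw [hc g, hv]
    exact Iff.rfl
  | succ j ih =>
    have hc := isC_loc P ω ω' (t := 2 * P.Z + 1 + (j + 1)) (by omega) v h
    have hv := h v (self_mem_Ba P _ v)
    have h0 := ih v fun w hw => h w (Ba_mono P (by omega) hw)
    have hU : P.U R ω (j + 1) v ↔ P.U R ω' (j + 1) v := by
      rw [P.U_succ, P.U_succ, h0.1, h0.2]
    refine ⟨hU, ?_⟩
    have hst : ∀ u ∈ St P v, (∀ g, P.isC ω u g ↔ P.isC ω' u g) ∧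
        (P.T R ω j u ↔ P.T R ω' j u) := by
      intro u hu
      have hu' : ∀ w ∈ Ba P (2 * P.Z + 1 + j) u, ω w = ω' w := fun w hw =>
        h w (Ba_step P hu hw)
      exact ⟨isC_loc P ω ω' (t := 2 * P.Z + 1 + j) (by omega) u hu', (ih u hu').2⟩
    have hF : ∀ g, P.isC ω v g → (P.Fo R ω (j + 1) v g ↔ P.Fo R ω' (j + 1) v g) := by
      intro g hg
      have hg1 : P.isC ω v (g - 1 + 1) := by rw [sub_add_cancel]; exact hg
      have hg2 : P.isC ω' v (g - 1 + 1) := (hc _).1 hg1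
      constructor
      · rintro ⟨u, h1, h2, h3⟩
        have h4 := hst u (mem_St_of P h1 (P.near_of_isC h2 hg1))
        exact ⟨u, h1, (h4.1 _).1 h2, h4.2.1 h3⟩
      · rintro ⟨u, h1, h2, h3⟩
        have h4 := hst u (mem_St_of P h1 (P.near_of_isC h2 hg2))
        exact ⟨u, h1, (h4.1 _).2 h2, h4.2.2 h3⟩
    rw [P.T_iff, P.T_iff]
    refine and_congr hU (exists_congr fun g => ?_)
    rw [← hc g, ← hv]
    refine and_congr_right fun hg => or_congr (hF g hg) Iff.rfl

omit [Fintype V] in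
theorem near3 {u v : V} {a b : ℕ} (ha : a < P.qm) (hb : b < P.qm)
    (h : P.cl (P.part u) b = P.cl (P.part v) a - 1 ∨ P.cl (P.part u) b = P.cl (P.part v) a ∨
      P.cl (P.part u) b = P.cl (P.part v) a + 1) : near P.K (P.part u) (P.part v) := by
  rcases h with h | h | h
  · exact P.near_of_succ (P.part_lt u) (P.part_lt v) hb ha (by rw [h, sub_add_cancel])
  · rw [(P.cl_inj (P.part_lt u) (P.part_lt v) hb ha h).1]
    exact Sy.near_self P _
  · exact near_symm (P.near_of_succ (P.part_lt v) (P.part_lt u) ha hb h.symm)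

theorem Ins_loc (v : V) (h : ∀ w ∈ Ba P (2 * P.Z + 2) v, ω w = ω' w) (a j : ℕ)
    (hI : P.Ins ω v a j) : P.Ins ω' v a j := by
  obtain ⟨h1, h2, h3, h4, h5⟩ := hI
  have hv := h v (self_mem_Ba P _ v)
  have ha : a < P.qm := by
    rw [← h2]
    exact P.pc_lt _
  have hst : ∀ u, P.H.Adj v u → near P.K (P.part u) (P.part v) →
      ω u = ω' u ∧ ∀ g, P.isC ω u g ↔ P.isC ω' u g := by
    intro u h6 h7
    have h8 : u ∈ St P v := mem_St_of P h6.symm h7
    have h9 : ∀ w ∈ Ba P (2 * P.Z + 1) u, ω w = ω' w := fun w hw => h w (Ba_step P h8 hw)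
    exact ⟨h9 u (self_mem_Ba P _ u), isC_loc P ω ω' le_rfl u h9⟩
  refine ⟨?_, ?_, ?_, ?_, ?_⟩
  · intro x hx
    rw [← col_loc P ω ω' (t := 2 * P.Z + 2) (by omega) v h] at hx
    exact h1 x hx
  · rw [← hv]
    exact h2
  · rw [← hv]
    exact h3
  · intro u h6
    have h7 : ∀ g, (g = P.cl (P.part v) a - 1 ∨ g = P.cl (P.part v) a ∨
        g = P.cl (P.part v) a + 1) → P.isC ω' u g → P.isC ω u g := by
      intro g hg h8
      obtain ⟨x, -, h9, h10⟩ := id h8
      exact ((hst u h6 (near3 P ha h9 (by rw [h10]; exact hg))).2 g).2 h8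
    obtain ⟨h8, h9, h10⟩ := h4 u h6
    exact ⟨fun h11 => h8 (h7 _ (Or.inl rfl) h11), fun h11 => h9 (h7 _ (Or.inr (Or.inl rfl)) h11),
      fun h11 => h10 (h7 _ (Or.inr (Or.inr rfl)) h11)⟩
  · intro u h6
    have h7 : (P.cl (P.part u) (P.pc (ω' u)) = P.cl (P.part v) a - 1 ∨
        P.cl (P.part u) (P.pc (ω' u)) = P.cl (P.part v) a ∨
        P.cl (P.part u) (P.pc (ω' u)) = P.cl (P.part v) a + 1) → ω u = ω' u := by
      intro hg
      exact (hst u h6 (near3 P ha (P.pc_lt _) hg)).1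
    obtain ⟨h8, h9, h10⟩ := h5 u h6
    refine ⟨fun h11 => ?_, fun h11 => ?_, fun h11 => ?_⟩
    · rw [h7 (Or.inl h11)] at h8
      exact h8 h11
    · rw [h7 (Or.inr (Or.inl h11))] at h9
      exact h9 h11
    · rw [h7 (Or.inr (Or.inr h11))] at h10
      exact h10 h11

end

theorem goalLOC : GoalLOC := by
  classical
  intro V _ P R
  refine ⟨fun v => (Ba P (2 * P.Z + P.J + 4) v : Set V), ?_, ?_⟩
  · intro v ω ω' h
    refine ⟨fun g hg => (isC_loc P ω ω' (t := 2 * P.Z + P.J + 4) (by omega) v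
      (fun w hw => h w hw) g).1 hg, ?_, ?_⟩
    · intro j hj hT
      exact (UT_loc P ω ω' R j v fun w hw => h w (Ba_mono P (by omega) hw)).2.1 hT
    · intro a j hI
      exact Ins_loc P ω ω' v (fun w hw => h w (Ba_mono P (by omega) hw)) a j hI
  · intro v
    refine le_trans ?_ (card_Ba_le P (2 * (2 * P.Z + P.J + 4)) v)
    rw [Nat.card_eq_fintype_card, Fintype.card_subtype]
    apply Finset.card_le_card
    intro t ht
    simp only [Finset.mem_filter, Finset.mem_univ, true_and] at ht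
    rw [Set.not_disjoint_iff] at ht
    obtain ⟨x, hx1, hx2⟩ := ht
    have := Ba_comp P (Finset.mem_coe.1 hx1) (Ba_symm P (Finset.mem_coe.1 hx2))
    rwa [← two_mul] at this

end Pool.Agent.Helper70.Sey3
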